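import Mathlib
import Pool.Agent.Work.MP_0426f4_nt.Defs
import Pool.Agent.Work.MP_0426f4_nt.Main

set_option autoImplicit false

namespace Pool.Agent.Results.MP_0426f4_nt.PolylogDensity

open Pool.Agent.MP0426f4

theorem result :
    (∀ n : ℕ, 2 ≤ n → ∃ A : Finset ℕ, A ⊆ Finset.Icc 1 n ∧ NoTwoConsecutive n A ∧
      (n : ℝ) ≤ 8 * Real.log n ^ 3 * A.card) ∧
    (∀ t n : ℕ, 3 ≤ t → 2 ≤ n → 1 / (8 * Real.log n ^ 3) ≤ g t n) ∧
    (∀ n : ℕ, 2 ≤ n → g 3 n ≤ 24 / Real.log n) ∧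
    (∀ t : ℕ, 3 ≤ t →
      Filter.Tendsto (fun n : ℕ => g t n * Real.log n ^ Real.log (Real.log n))
        Filter.atTop Filter.atTop) :=
  ⟨exists_lower, g_lower, g_upper, g_tendsto⟩

end Pool.Agent.Results.MP_0426f4_nt.PolylogDensity
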